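import Pool.Agent.Y522.Stm7
import Pool.Agent.Y522.Tools
import Pool.Agent.Y496.SH.Mono
import Pool.Agent.Y784.SH.Ext
import Pool.Agent.Y248.SH.Germ

/-!
# Schoenflies: common part of the jobs Sch1 and Sch2 of helper522
-/

set_option autoImplicit false

open Set Filter Topology Metric Function MeasureTheory
open scoped Manifold ContDiff

noncomputable section

namespace Pool.Agent.Y514.SH

open Pool.Agent.Y522

/-- the standard diffeomorphism onto the open unit ball -/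
abbrev UB (n : ℕ) : OpenPartialHomeomorph (E n) (E n) :=
  OpenPartialHomeomorph.univBall (0 : E n) 1

theorem UB_source (n : ℕ) : (UB n).source = univ := OpenPartialHomeomorph.univBall_source _ _

theorem UB_target (n : ℕ) : (UB n).target = ball 0 1 :=
  OpenPartialHomeomorph.univBall_target _ one_pos

theorem UB_LD (n : ℕ) (x : E n) : LD n (UB n) x := Pool.Agent.Y496.SH.LD_univBall one_pos x

theorem UB_left (n : ℕ) (x : E n) : (UB n).symm (UB n x) = x :=
  (UB n).left_inv (by rw [UB_source]; exact mem_univ _)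

theorem UB_right (n : ℕ) {x : E n} (hx : ‖x‖ < 1) : UB n ((UB n).symm x) = x :=
  (UB n).right_inv (by rw [UB_target, mem_ball_zero_iff]; exact hx)

theorem UB_norm (n : ℕ) (x : E n) : ‖UB n x‖ < 1 := by
  have h1 : UB n x ∈ (UB n).target := (UB n).map_source (by rw [UB_source]; exact mem_univ _)
  rwa [UB_target, mem_ball_zero_iff] at h1

theorem UB_inj (n : ℕ) : Injective (UB n) := fun x y h => by
  rw [← UB_left n x, ← UB_left n y, h]

theorem UB_symm_LD (n : ℕ) {x : E n} (hx : ‖x‖ < 1) : LD n (UB n).symm x := by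
  have h := LD.inverse (k := UB n) (g := (UB n).symm) isOpen_univ (fun x _ => UB_LD n x)
    (fun x _ => UB_left n x) (mem_univ ((UB n).symm x))
  rwa [UB_right n hx] at h

theorem UB_continuous (n : ℕ) : Continuous (UB n) :=
  continuous_iff_continuousAt.2 fun x => (UB_LD n x).continuousAt

theorem LD_iff (n : ℕ) (H : E n → E n) (x : E n) :
    LD n (fun y => H (UB n y)) x ↔ LD n H (UB n x) := by
  constructor
  · intro h
    have h0 : LD n (fun y => H (UB n y)) ((UB n).symm (UB n x)) := by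
      rw [UB_left]; exact h
    have h1 : LD n (fun z => (fun y => H (UB n y)) ((UB n).symm z)) (UB n x) :=
      LD.comp_fun (g := fun y => H (UB n y)) (f := (UB n).symm) h0 (UB_symm_LD n (UB_norm n x))
    refine h1.congr ?_
    have h2 : ∀ᶠ z in 𝓝 (UB n x), ‖z‖ < 1 :=
      continuous_norm.continuousAt.eventually (gt_mem_nhds (UB_norm n x))
    filter_upwards [h2] with z hz
    simp only [UB_right n hz]
  · intro h
    exact LD.comp_fun (g := H) (f := UB n) h (UB_LD n x)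

theorem isCompact_bad (n : ℕ) (H : E n → E n)
    (hL : ∀ x, ‖x‖ = 1 → LD n H x) :
    IsCompact {x | ¬ LD n (fun y => H (UB n y)) x} := by
  have hop : IsOpen {y | LD n H y} := isOpen_iff_mem_nhds.2 fun y hy => LD.eventually hy
  have hK : IsCompact (closedBall (0 : E n) 1 ∩ {y | LD n H y}ᶜ) :=
    (isCompact_closedBall _ _).inter_right hop.isClosed_compl
  have hsub : closedBall (0 : E n) 1 ∩ {y | LD n H y}ᶜ ⊆ ball 0 1 := by
    rintro y ⟨hy1, hy2⟩
    rw [mem_closedBall_zero_iff] at hy1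
    rw [mem_ball_zero_iff]
    rcases hy1.lt_or_eq with h | h
    · exact h
    · exact absurd (hL y h) hy2
  have him : IsCompact ((UB n).symm '' (closedBall (0 : E n) 1 ∩ {y | LD n H y}ᶜ)) := by
    refine hK.image_of_continuousOn ((UB n).continuousOn_symm.mono ?_)
    rw [UB_target]
    exact hsub
  convert him using 1
  ext x
  constructor
  · intro hx
    refine ⟨UB n x, ⟨mem_closedBall_zero_iff.2 (UB_norm n x).le, ?_⟩, UB_left n x⟩
    intro hc
    exact hx ((LD_iff n H x).2 hc)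
  · rintro ⟨y, hy, rfl⟩ hc
    have h1 := (LD_iff n H _).1 hc
    have hy1 : ‖y‖ < 1 := mem_ball_zero_iff.1 (hsub hy)
    rw [UB_right n hy1] at h1
    exact hy.2 h1

theorem range_comp_UB (n : ℕ) (H : E n → E n) :
    range (fun y => H (UB n y)) = H '' ball 0 1 := by
  ext z
  constructor
  · rintro ⟨y, rfl⟩
    exact ⟨UB n y, mem_ball_zero_iff.2 (UB_norm n y), rfl⟩
  · rintro ⟨y, hy, rfl⟩
    refine ⟨(UB n).symm y, ?_⟩
    simp only [UB_right n (mem_ball_zero_iff.1 hy)]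

/-- an open embedding of `ℝ^n` into the ball of radius `1 + δ` which is the identity on the unit
ball -/
theorem exists_shrink' (n : ℕ) {δ : ℝ} (hδ : 0 < δ) : ∃ σ : E n → E n, Injective σ ∧
    (∀ x, LD n σ x) ∧ (∀ x, ‖σ x‖ < 1 + δ) ∧ ∀ x, ‖x‖ ≤ 1 → σ x = x := by
  have hExt : StExt := Pool.Agent.Y784.SH.ext Pool.Agent.Y248.SH.germ
  obtain ⟨σ, hσi, hσL, hσb, hσ⟩ := Pool.Agent.Y496.SH.exists_shrink hExt n
    (R := 1 / δ) (by positivity)
  have hδ0 : δ ≠ 0 := hδ.ne'
  have hδi : δ⁻¹ ≠ 0 := inv_ne_zero hδ0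
  let e : E n ≃L[ℝ] E n := ContinuousLinearEquiv.smulLeft (Units.mk0 δ hδ0)
  let e' : E n ≃L[ℝ] E n := ContinuousLinearEquiv.smulLeft (Units.mk0 δ⁻¹ hδi)
  have he : ∀ x, e x = δ • x := fun x => rfl
  have he' : ∀ x, e' x = δ⁻¹ • x := fun x => rfl
  refine ⟨fun x => e (σ (e' x)), ?_, ?_, ?_, ?_⟩
  · intro x y hxy
    exact e'.injective (hσi (e.injective hxy))
  · intro x
    refine LD.comp_fun (g := fun y => e y) (f := fun x => σ (e' x)) (LD_linear e _) ?_
    exact LD.comp_fun (g := σ) (f := fun x => e' x) (hσL _) (LD_linear e' _)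
  · intro x
    have h1 := hσb (e' x)
    simp only [he]
    rw [norm_smul, Real.norm_of_nonneg hδ.le]
    calc δ * ‖σ (e' x)‖ < δ * (1 / δ + 1) := mul_lt_mul_of_pos_left h1 hδ
      _ = 1 + δ := by field_simp
  · intro x hx
    have h1 : ‖e' x‖ ≤ 1 / δ := by
      rw [he', norm_smul, Real.norm_of_nonneg (inv_pos.2 hδ).le, one_div]
      calc δ⁻¹ * ‖x‖ ≤ δ⁻¹ * 1 := mul_le_mul_of_nonneg_left hx (inv_pos.2 hδ).le
        _ = δ⁻¹ := mul_one _
    simp only [hσ _ h1]
    rw [he, he', smul_smul, mul_inv_cancel₀ hδ0, one_smul]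

/-- the common end of the two proofs -/
theorem finish (hE : StExtO) (n : ℕ) (H : E n → E n) (δ : ℝ) (hδ : 0 < δ)
    (hi : InjOn H (ball 0 (1 + δ))) (hL : ∀ x, 1 ≤ ‖x‖ → ‖x‖ < 1 + δ → LD n H x)
    (F' : E n → E n) (C : Set (E n)) (hC : IsCompact C) (hF'i : Injective F')
    (hr : range F' = range (fun y => H (UB n y)))
    (hF'C : ∀ p, p ∉ C → F' p = H (UB n p))
    (hF'L : ∀ x, LD n F' x) :
    ∃ (G : E n → E n) (O : E n ≃ₗᵢ[ℝ] E n) (R' : ℝ), Bijective G ∧
      (∀ x, LD n G x) ∧ (∀ x, ‖x‖ = 1 → G x = H x) ∧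
      G '' closedBall 0 1 = H '' closedBall 0 1 ∧ ∀ x, R' ≤ ‖x‖ → G x = O x := by
  classical
  rw [range_comp_UB] at hr
  set H' : E n → E n := fun x => if ‖x‖ < 1 then F' ((UB n).symm x) else H x with hH'
  have hH1 : ∀ x, ‖x‖ < 1 → H' x = F' ((UB n).symm x) := fun x hx => if_pos hx
  have hH2 : ∀ x, 1 ≤ ‖x‖ → H' x = H x := fun x hx => if_neg (not_lt.2 hx)
  have hBC : IsCompact (UB n '' C) := hC.image (UB_continuous n)
  have hBCs : ∀ y ∈ UB n '' C, ‖y‖ < 1 := by
    rintro _ ⟨y, _, rfl⟩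
    exact UB_norm n y
  have hH3 : ∀ y, y ∉ UB n '' C → H' y = H y := by
    intro y hy
    by_cases h : ‖y‖ < 1
    · rw [hH1 y h, hF'C, UB_right n h]
      intro hc
      exact hy ⟨_, hc, UB_right n h⟩
    · exact hH2 y (not_lt.1 h)
  have hH'L : ∀ x, ‖x‖ < 1 + δ → LD n H' x := by
    intro x hx
    by_cases h : ‖x‖ < 1
    · have h1 : LD n (fun z => F' ((UB n).symm z)) x :=
        LD.comp_fun (g := F') (f := (UB n).symm) (hF'L _) (UB_symm_LD n h)
      refine h1.congr ?_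
      have h2 : ∀ᶠ z in 𝓝 x, ‖z‖ < 1 := continuous_norm.continuousAt.eventually (gt_mem_nhds h)
      filter_upwards [h2] with z hz
      exact hH1 z hz
    · refine (hL x (not_lt.1 h) hx).congr ?_
      have h2 : (UB n '' C)ᶜ ∈ 𝓝 x := hBC.isClosed.isOpen_compl.mem_nhds fun hc => h (hBCs x hc)
      filter_upwards [h2] with z hz
      exact hH3 z hz
  have hmemr : ∀ x, ‖x‖ < 1 → ∃ z, ‖z‖ < 1 ∧ H z = H' x := by
    intro x hx
    have h1 : H' x ∈ range F' := by rw [hH1 x hx]; exact mem_range_self _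
    rw [hr] at h1
    obtain ⟨z, hz, hz2⟩ := h1
    exact ⟨z, mem_ball_zero_iff.1 hz, hz2⟩
  have hH'i : ∀ x y, ‖x‖ < 1 + δ → ‖y‖ < 1 + δ → H' x = H' y → x = y := by
    have key : ∀ x y, ‖x‖ < 1 → 1 ≤ ‖y‖ → ‖y‖ < 1 + δ → H' x ≠ H' y := by
      intro x y hx hy hy2 hxy
      obtain ⟨z, hz, hz2⟩ := hmemr x hx
      rw [hxy, hH2 y hy] at hz2
      have := hi (mem_ball_zero_iff.2 (by linarith)) (mem_ball_zero_iff.2 hy2) hz2
      rw [this] at hz
      linarith
    intro x y hx hy hxy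
    by_cases h1 : ‖x‖ < 1
    · by_cases h2 : ‖y‖ < 1
      · rw [hH1 x h1, hH1 y h2] at hxy
        have h3 := hF'i hxy
        rw [← UB_right n h1, ← UB_right n h2, h3]
      · exact absurd hxy (key x y h1 (not_lt.1 h2) hy)
    · by_cases h2 : ‖y‖ < 1
      · exact absurd hxy.symm (key y x h2 (not_lt.1 h1) hx)
      · rw [hH2 x (not_lt.1 h1), hH2 y (not_lt.1 h2)] at hxy
        exact hi (mem_ball_zero_iff.2 hx) (mem_ball_zero_iff.2 hy) hxy
  have hH'im : H' '' closedBall 0 1 = H '' closedBall 0 1 := by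
    apply Subset.antisymm
    · rintro _ ⟨x, hx, rfl⟩
      rw [mem_closedBall_zero_iff] at hx
      rcases hx.lt_or_eq with h | h
      · obtain ⟨z, hz, hz2⟩ := hmemr x h
        exact ⟨z, mem_closedBall_zero_iff.2 hz.le, hz2⟩
      · exact ⟨x, mem_closedBall_zero_iff.2 hx, (hH2 x h.ge).symm⟩
    · rintro _ ⟨x, hx, rfl⟩
      rw [mem_closedBall_zero_iff] at hx
      rcases hx.lt_or_eq with h | h
      · have h1 : H x ∈ range F' := by
          rw [hr]
          exact ⟨x, mem_ball_zero_iff.2 h, rfl⟩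
        obtain ⟨w, hw⟩ := h1
        refine ⟨UB n w, mem_closedBall_zero_iff.2 (UB_norm n w).le, ?_⟩
        rw [hH1 _ (UB_norm n w), UB_left, hw]
      · exact ⟨x, mem_closedBall_zero_iff.2 hx, hH2 x h.ge⟩
  obtain ⟨σ, hσi, hσL, hσb, hσ⟩ := exists_shrink' n hδ
  obtain ⟨G, O, R', hG1, hG2, hG3, hG4⟩ := hE n (fun x => H' (σ x))
    (fun x y hxy => hσi (hH'i _ _ (hσb x) (hσb y) hxy))
    (fun x => LD.comp_fun (g := H') (f := σ) (hH'L _ (hσb x)) (hσL x)) 1
  have hG5 : ∀ x, ‖x‖ ≤ 1 → G x = H' x := by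
    intro x hx
    rw [hG3 x hx]
    simp only [hσ x hx]
  refine ⟨G, O, R', hG1, hG2, ?_, ?_, hG4⟩
  · intro x hx
    rw [hG5 x hx.le, hH2 x hx.ge]
  · rw [← hH'im]
    exact image_congr fun x hx => hG5 x (mem_closedBall_zero_iff.1 hx)

end Pool.Agent.Y514.SH
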