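import Pool.Agent.Y514.SH.Base

/-!
# Schoenflies theorem for balls with `m` smooth linear coordinates (job SH4-Sch1 of helper522)
-/

set_option autoImplicit false

open Set Filter Topology Metric Function MeasureTheory
open scoped Manifold ContDiff

noncomputable section

namespace Pool.Agent.Y514.SH

open Pool.Agent.Y522

theorem sch1 (hG : StGlob) (hE : StExtO) : StSch1 := by
  intro m H δ hδ hHc hHi hHL hP
  have hsub : ball (0 : E (m + 1)) 1 ⊆ ball 0 (1 + δ) := ball_subset_ball (by linarith)
  have hFc : Continuous (fun y => H (UB (m + 1) y)) := by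
    have h1 : ContinuousOn H (ball 0 1) := hHc.mono hsub
    exact h1.comp_continuous (UB_continuous (m + 1)) fun x => mem_ball_zero_iff.2 (UB_norm _ x)
  have hFi : Injective (fun y => H (UB (m + 1) y)) := by
    intro x y hxy
    exact UB_inj (m + 1) (hHi (hsub (mem_ball_zero_iff.2 (UB_norm _ x)))
      (hsub (mem_ball_zero_iff.2 (UB_norm _ y))) hxy)
  obtain ⟨F', C, hC, -, hF'i, hF'r, hF'C, hF'L⟩ := hG m (E (m + 1))
    (fun y => H (UB (m + 1) y)) hFc hFi (by
      intro x hx
      have hx' : ¬ LD (m + 1) H (UB (m + 1) x) := fun hc => hx ((LD_iff _ H x).2 hc)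
      obtain ⟨P, hP1, hP2⟩ := hP _ (UB_norm _ x) hx'
      have hBd : ∀ y, ContDiffAt ℝ ∞ (UB (m + 1)) y := fun y => (UB_LD (m + 1) y).contDiffAt
      refine ⟨P, ?_, ?_⟩
      · filter_upwards [(UB_continuous (m + 1)).continuousAt.eventually hP1] with y hy
        exact contMDiffAt_iff_contDiffAt.2
          (ContDiffAt.comp (g := fun y => P (H y)) y hy (hBd y))
      · rw [mfderiv_eq_fderiv]
        have h1 : fderiv ℝ (fun y => P (H (UB (m + 1) y))) x =
            (fderiv ℝ (fun y => P (H y)) (UB (m + 1) x)).comp (fderiv ℝ (UB (m + 1)) x) :=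
          fderiv_comp (g := fun y => P (H y)) x
            (hP1.self_of_nhds.differentiableAt (by simp)) ((hBd x).differentiableAt (by simp))
        obtain ⟨A, hA⟩ := (UB_LD (m + 1) x).exists_equiv
        have h2 : fderiv ℝ (UB (m + 1)) x = (A : E (m + 1) →L[ℝ] E (m + 1)) := hA.fderiv
        rw [h1, h2]
        intro w
        obtain ⟨v, hv⟩ := hP2 w
        refine ⟨A.symm v, ?_⟩
        change (fderiv ℝ (fun y => P (H y)) (UB (m + 1) x)) (A (A.symm v)) = w
        rw [A.apply_symm_apply]
        exact hv)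
    (isCompact_bad (m + 1) H fun x hx => hHL x hx.ge (by linarith))
  exact finish hE (m + 1) H δ hδ hHi hHL F' C hC hF'i hF'r hF'C hF'L

end Pool.Agent.Y514.SH
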