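import Pool.Agent.Y514.SH.Base
import Pool.Agent.Helper514.IoD

/-!
# Schoenflies theorem for directionally monotone balls (job SH4-Sch2 of helper522)
-/

set_option autoImplicit false

open Set Filter Topology Metric Function MeasureTheory
open scoped Manifold ContDiff

noncomputable section

namespace Pool.Agent.Y514.SH

open Pool.Agent.Y522

theorem sch2 (hG : StMGlobV) (hE : StExtO) : StSch2 := by
  intro n H δ hδ hHc hHi hHL hD
  have hsub : ball (0 : E n) 1 ⊆ ball 0 (1 + δ) := ball_subset_ball (by linarith)
  have hFc : Continuous (fun y => H (UB n y)) := by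
    have h1 : ContinuousOn H (ball 0 1) := hHc.mono hsub
    exact h1.comp_continuous (UB_continuous n) fun x => mem_ball_zero_iff.2 (UB_norm _ x)
  have hFi : Injective (fun y => H (UB n y)) := by
    intro x y hxy
    exact UB_inj n (hHi (hsub (mem_ball_zero_iff.2 (UB_norm _ x)))
      (hsub (mem_ball_zero_iff.2 (UB_norm _ y))) hxy)
  have hFo : IsOpenMap (fun y => H (UB n y)) := by
    refine IsOpenMap.of_nhds_le fun x s hs => ?_
    obtain ⟨r, hr, hrs⟩ := Metric.nhds_basis_closedBall.mem_iff.1 (Filter.mem_map.1 hs)
    have h1 := Pool.Agent.Helper514.IoD.image_mem_nhds (fun y => H (UB n y)) x r hr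
      hFc.continuousOn hFi.injOn
    refine mem_of_superset h1 ?_
    rintro _ ⟨y, hy, rfl⟩
    exact hrs hy
  obtain ⟨F', C, hC, -, hF'i, hF'r, hF'C, hF'L⟩ := hG n (E n)
    (fun y => H (UB n y)) (IsOpenEmbedding.of_continuous_injective_isOpenMap hFc hFi hFo)
    (isPreconnected_range hFc) (by
      intro x hx
      have hx' : ¬ LD n H (UB n x) := fun hc => hx ((LD_iff _ H x).2 hc)
      have hxn : ‖UB n x‖ < 1 := UB_norm n x
      refine ⟨fun z => (UB n).symm (z + UB n x), ?_, ?_, ?_⟩
      · simp only [zero_add]
        exact UB_left n x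
      · refine LD.comp_fun (g := (UB n).symm) (f := fun z => z + UB n x) ?_ (LD_add_const _ _)
        rw [zero_add]
        exact UB_symm_LD n hxn
      · intro v hv
        obtain ⟨r, ℓ, hr, hrl⟩ := hD _ hxn hx' v hv
        have hroom : 0 < (1 - ‖UB n x‖) / 2 := by linarith
        refine ⟨min r ((1 - ‖UB n x‖) / 2), ℓ, lt_min hr hroom, ?_⟩
        intro p q hp hq t ht hpq
        have hin : ∀ w : E n, ‖w‖ ≤ min r ((1 - ‖UB n x‖) / 2) → ‖w + UB n x‖ < 1 := by
          intro w hw
          have h1 := hw.trans (min_le_right _ _)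
          have h2 := norm_add_le w (UB n x)
          linarith
        simp only [UB_right n (hin p hp), UB_right n (hin q hq)]
        refine hrl _ _ ?_ ?_ t ht ?_
        · rw [add_sub_cancel_right]
          exact hp.trans (min_le_left _ _)
        · rw [add_sub_cancel_right]
          exact hq.trans (min_le_left _ _)
        · rw [add_sub_add_right_eq_sub]
          exact hpq.trans (mul_le_mul_of_nonneg_right (min_le_left _ _) ht.le))
    (isCompact_bad n H fun x hx => hHL x hx.ge (by linarith))
  exact finish hE n H δ hδ hHi hHL F' C hC hF'i hF'r hF'C hF'L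

end Pool.Agent.Y514.SH
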